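import Pool.Agent.H59.L.S8.H691R3.Root

set_option autoImplicit false
set_option linter.unusedSectionVars false

/-!
Local lower bounds for the auxiliary quantity of the `k`-th root descent.
-/

namespace Pool.Agent.H691R3

open NumberField IsDedekindDomain Finset

section Abs

variable {K : Type*} [Field K] (f : AbsoluteValue K ℝ)

/-- the wedge of two pairs -/
def wg (p r : K × K) : K := p.1 * r.2 - p.2 * r.1

/-- sup norm -/
noncomputable def nrm (p : K × K) : ℝ := max (f p.1) (f p.2)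

lemma nrm_pos {p : K × K} (hp : p ≠ 0) : 0 < nrm f p := max_pos f hp

lemma wg_exp {p r : K × K} (hp : p ≠ 0) (hr : r ≠ 0) (h : wg p r ≠ 0) :
    f (wg p r) = nrm f p * nrm f r * Real.exp (-lamA f p r) := by
  have h1 := nrm_pos f hp
  have h2 := nrm_pos f hr
  have h3 := f.pos h
  have h4 : lamA f p r = Real.log (nrm f p * nrm f r / f (wg p r)) := rfl
  rw [h4, ← Real.log_inv, Real.exp_log (by positivity), inv_div]
  field_simp

lemma plucker (x y a b : K × K) : wg x a * wg y b - wg y a * wg x b = wg x y * wg a b := by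
  unfold wg; ring

/-- logarithm of the reciprocal of the normalised size of `A` -/
noncomputable def muA (p r : K × K) (A : K) : ℝ := Real.log (nrm f p * nrm f r / f A)

lemma le_muA_iff {p r : K × K} (hp : p ≠ 0) (hr : r ≠ 0) {A : K} (hA : A ≠ 0) (t : ℝ) :
    t ≤ muA f p r A ↔ f A ≤ Real.exp (-t) * (nrm f p * nrm f r) := by
  have h1 := nrm_pos f hp
  have h2 := nrm_pos f hr
  have h3 := f.pos hA
  unfold muA
  rw [Real.le_log_iff_exp_le (by positivity), le_div_iff₀ h3, Real.exp_neg, inv_mul_eq_div,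
    le_div_iff₀ (Real.exp_pos t), mul_comm (Real.exp t)]

/-- gain at the two root forms -/
lemma muA_ge {c : ℝ} (hc1 : 1 ≤ c) (hc : ∀ a b, f (a + b) ≤ c * max (f a) (f b)) {k : ℕ}
    {p r α1 α2 : K × K} (hp : p ≠ 0) (hr : r ≠ 0) (hα1 : α1 ≠ 0) (hα2 : α2 ≠ 0)
    (hp1 : wg p α1 ≠ 0) (hp2 : wg p α2 ≠ 0) (hr1 : wg r α1 ≠ 0) (hr2 : wg r α2 ≠ 0)
    {tx ty g0 : K} (hx : tx ^ k * g0 * wg p α2 = wg p α1) (hy : ty ^ k * g0 * wg r α2 = wg r α1)
    (hA : (tx - ty) ^ k * wg p α2 * wg r α2 * g0 ≠ 0)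
    (ℓ : ℝ) (h1 : -ℓ ≤ lamA f p α1) (h2 : -ℓ ≤ lamA f p α2) (h3 : -ℓ ≤ lamA f r α1)
    (h4 : -ℓ ≤ lamA f r α2) (θ : ℝ)
    (hθ : (θ ≤ lamA f p α1 ∧ θ ≤ lamA f r α1) ∨ (θ ≤ lamA f p α2 ∧ θ ≤ lamA f r α2)) :
    θ - (k * Real.log c + Real.log (nrm f α1) + Real.log (nrm f α2) + ℓ) ≤
      muA f p r ((tx - ty) ^ k * wg p α2 * wg r α2 * g0) := by
  have hcpos : 0 < c := by linarith
  have n1 := nrm_pos f hp
  have n2 := nrm_pos f hr
  have n3 := nrm_pos f hα1
  have n4 := nrm_pos f hα2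
  rw [le_muA_iff f hp hr hA]
  refine (A_le f hc hx hy).trans ?_
  have e1 : Real.exp (-(θ - (k * Real.log c + Real.log (nrm f α1) + Real.log (nrm f α2) + ℓ))) =
      c ^ k * (nrm f α1 * nrm f α2 * Real.exp (ℓ - θ)) := by
    rw [show -(θ - (k * Real.log c + Real.log (nrm f α1) + Real.log (nrm f α2) + ℓ)) =
      Real.log c * k + (Real.log (nrm f α1) + (Real.log (nrm f α2) + (ℓ - θ))) by ring,
      Real.exp_add, Real.exp_add, Real.exp_add, Real.exp_log n3, Real.exp_log n4]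
    rw [mul_comm (Real.log c), Real.exp_nat_mul, Real.exp_log hcpos]
    ring
  rw [e1]
  have hb : ∀ s t : ℝ, -(s + t) ≤ ℓ - θ → Real.exp (-s) * Real.exp (-t) ≤ Real.exp (ℓ - θ) := by
    intro s t h
    rw [← Real.exp_add]
    exact Real.exp_le_exp.mpr (by linarith)
  have key1 : f (wg p α1) * f (wg r α2) ≤
      nrm f α1 * nrm f α2 * Real.exp (ℓ - θ) * (nrm f p * nrm f r) := by
    rw [wg_exp f hp hα1 hp1, wg_exp f hr hα2 hr2]
    have h5 : Real.exp (-lamA f p α1) * Real.exp (-lamA f r α2) ≤ Real.exp (ℓ - θ) := by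
      apply hb
      rcases hθ with h | h
      · linarith [h.1]
      · linarith [h.2]
    calc nrm f p * nrm f α1 * Real.exp (-lamA f p α1) *
          (nrm f r * nrm f α2 * Real.exp (-lamA f r α2))
        = (nrm f α1 * nrm f α2 * (nrm f p * nrm f r)) *
          (Real.exp (-lamA f p α1) * Real.exp (-lamA f r α2)) := by ring
      _ ≤ (nrm f α1 * nrm f α2 * (nrm f p * nrm f r)) * Real.exp (ℓ - θ) :=
          mul_le_mul_of_nonneg_left h5 (by positivity)
      _ = _ := by ring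
  have key2 : f (wg r α1) * f (wg p α2) ≤
      nrm f α1 * nrm f α2 * Real.exp (ℓ - θ) * (nrm f p * nrm f r) := by
    rw [wg_exp f hr hα1 hr1, wg_exp f hp hα2 hp2]
    have h5 : Real.exp (-lamA f r α1) * Real.exp (-lamA f p α2) ≤ Real.exp (ℓ - θ) := by
      apply hb
      rcases hθ with h | h
      · linarith [h.2]
      · linarith [h.1]
    calc nrm f r * nrm f α1 * Real.exp (-lamA f r α1) *
          (nrm f p * nrm f α2 * Real.exp (-lamA f p α2))
        = (nrm f α1 * nrm f α2 * (nrm f p * nrm f r)) *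
          (Real.exp (-lamA f r α1) * Real.exp (-lamA f p α2)) := by ring
      _ ≤ (nrm f α1 * nrm f α2 * (nrm f p * nrm f r)) * Real.exp (ℓ - θ) :=
          mul_le_mul_of_nonneg_left h5 (by positivity)
      _ = _ := by ring
  calc c ^ k * max (f (wg p α1) * f (wg r α2)) (f (wg r α1) * f (wg p α2))
      ≤ c ^ k * (nrm f α1 * nrm f α2 * Real.exp (ℓ - θ) * (nrm f p * nrm f r)) :=
        mul_le_mul_of_nonneg_left (max_le key1 key2) (by positivity)
    _ = _ := by ring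

/-- gain at a third form, nonarchimedean good case -/
lemma muA_ge_third_na (hna : ∀ a b, f (a + b) ≤ max (f a) (f b)) {k : ℕ} (hk : f (k : K) = 1)
    {p r α1 α2 α3 : K × K} (hp : p ≠ 0) (hr : r ≠ 0) (hα1 : α1 ≠ 0) (hα2 : α2 ≠ 0) (hα3 : α3 ≠ 0)
    (hpr : wg p r ≠ 0)
    (hp1 : wg p α1 ≠ 0) (hp2 : wg p α2 ≠ 0) (hr1 : wg r α1 ≠ 0) (hr2 : wg r α2 ≠ 0)
    (hp3 : wg p α3 ≠ 0) (hr3 : wg r α3 ≠ 0)
    (h12 : wg α1 α2 ≠ 0) (h13 : wg α3 α1 ≠ 0) (h23 : wg α3 α2 ≠ 0)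
    (n1 : nrm f α1 = 1) (n2 : nrm f α2 = 1)
    (l12 : lamA f α1 α2 = 0) (l13 : lamA f α3 α1 = 0) (l23 : lamA f α3 α2 = 0)
    {tx ty g0 : K} (hx : tx ^ k * g0 * wg p α2 = wg p α1) (hy : ty ^ k * g0 * wg r α2 = wg r α1)
    (hty : ty ≠ 0)
    (θ : ℝ) (hθ0 : 0 < θ) (hθp : θ ≤ lamA f p α3) (hθr : θ ≤ lamA f r α3) :
    f ((tx / ty) ^ k - 1) ≤ Real.exp (-θ) ∧
    (f (tx / ty - 1) < 1 → (tx - ty) ^ k * wg p α2 * wg r α2 * g0 ≠ 0 →
      k * θ ≤ muA f p r ((tx - ty) ^ k * wg p α2 * wg r α2 * g0)) := by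
  have np := nrm_pos f hp
  have nr := nrm_pos f hr
  -- away from the other two points
  have hz : ∀ (s β : K × K), s ≠ 0 → β ≠ 0 → wg s β ≠ 0 → wg s α3 ≠ 0 → wg α3 β ≠ 0 →
      lamA f α3 β = 0 → θ ≤ lamA f s α3 → nrm f β = 1 → f (wg s β) = nrm f s := by
    intro s β hs hβ hsβ hs3 h3β hl hθs hnβ
    have h0 := lamA_nonneg f hna hs hβ hsβ
    have h1 : lamA f s β = 0 := by
      refine le_antisymm ?_ h0
      by_contra hcon
      rw [not_le] at hcon
      have h2 := lamA_ultra f hna hα3 hs hβ h3β (wedge_ne hs3) hsβ (min θ (lamA f s β))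
        (by rw [lamA_comm f α3 s]; exact (min_le_left _ _).trans hθs) (min_le_right _ _)
      rw [hl] at h2
      have h3 : 0 < min θ (lamA f s β) := lt_min hθ0 hcon
      linarith
    rw [wg_exp f hs hβ hsβ, h1, neg_zero, Real.exp_zero, hnβ, mul_one, mul_one]
  have ha2 : f (wg p α2) = nrm f p := hz p α2 hp hα2 hp2 hp3 h23 l23 hθp n2
  have hb1 : f (wg r α1) = nrm f r := hz r α1 hr hα1 hr1 hr3 h13 l13 hθr n1
  have hpr' : θ ≤ lamA f p r := lamA_ultra f hna hp hα3 hr hpr hp3 (wedge_ne hr3) θ hθp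
    (by rw [lamA_comm f α3 r]; exact hθr)
  have hu : f ((tx / ty) ^ k - 1) ≤ Real.exp (-θ) := by
    have h1 := u_eq hx hy hty
    have h2 : f (((tx / ty) ^ k - 1) * (wg r α1 * wg p α2)) = f (wg p r * wg α1 α2) := by
      rw [h1, plucker]
    rw [f.map_mul, f.map_mul, f.map_mul, ha2, hb1, wg_exp f hα1 hα2 h12, l12, n1, n2, neg_zero,
      Real.exp_zero, wg_exp f hp hr hpr] at h2
    have h3 : f ((tx / ty) ^ k - 1) * (nrm f r * nrm f p) =
        Real.exp (-lamA f p r) * (nrm f r * nrm f p) := by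
      rw [h2]; ring
    have h4 := mul_right_cancel₀ (mul_pos nr np).ne' h3
    rw [h4]
    exact Real.exp_le_exp.mpr (by linarith)
  refine ⟨hu, fun hlt hA => ?_⟩
  rw [le_muA_iff f hp hr hA, A_eq hy hty, f.map_mul, f.map_mul, ha2, hb1, f.map_pow]
  have h5 : f (tx / ty - 1) ≤ Real.exp (-θ) := (root_na f hna hk hlt).trans hu
  have h6 : f (tx / ty - 1) ^ k ≤ Real.exp (-(k * θ)) := by
    calc f (tx / ty - 1) ^ k ≤ Real.exp (-θ) ^ k := pow_le_pow_left₀ (f.nonneg _) h5 k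
      _ = Real.exp (-(k * θ)) := by rw [← Real.exp_nat_mul]; congr 1; ring
  calc f (tx / ty - 1) ^ k * (nrm f r * nrm f p) ≤ Real.exp (-(k * θ)) * (nrm f r * nrm f p) :=
        mul_le_mul_of_nonneg_right h6 (by positivity)
    _ = _ := by ring
where
  wedge_ne {K : Type _} [Field K] {p r : K × K} (h : wg p r ≠ 0) :
      wg r p ≠ 0 := by
    intro h2
    apply h
    have : wg p r = -(wg r p) := by unfold wg; ring
    rw [this, h2, neg_zero]

lemma wg_ne_comm {K : Type*} [Field K] {p r : K × K} (h : wg p r ≠ 0) : wg r p ≠ 0 := by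
  intro h2
  apply h
  have : wg p r = -(wg r p) := by unfold wg; ring
  rw [this, h2, neg_zero]

lemma f_wg_comm (p r : K × K) : f (wg p r) = f (wg r p) := by
  rw [← f.map_neg]; congr 1; unfold wg; ring

lemma f_wg_le (p r : K × K) : f (wg p r) ≤ 2 * (nrm f p * nrm f r) := by
  unfold wg nrm
  rw [sub_eq_add_neg, two_mul]
  have h0 : 0 ≤ max (f p.1) (f p.2) := (f.nonneg _).trans (le_max_left _ _)
  refine (f.add_le _ _).trans (add_le_add ?_ ?_)
  · rw [f.map_mul]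
    exact mul_le_mul (le_max_left _ _) (le_max_right _ _) (f.nonneg _) h0
  · rw [f.map_neg, f.map_mul]
    exact mul_le_mul (le_max_right _ _) (le_max_left _ _) (f.nonneg _) h0

/-- a point very near `α3` is away from `β` -/
lemma away {s β α3 : K × K} (hs : s ≠ 0) (hα3 : α3 ≠ 0)
    (hs3 : wg s α3 ≠ 0) (h3β : wg α3 β ≠ 0) (θ : ℝ)
    (hθ : 4 * nrm f α3 * nrm f β * Real.exp (-θ) ≤ f (wg α3 β) * 1)
    (hβ : β ≠ 0) (hθs : θ ≤ lamA f s α3) :
    f (wg α3 β) / (2 * nrm f α3) * nrm f s ≤ f (wg s β) := by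
  have n3 := nrm_pos f hα3
  have ns := nrm_pos f hs
  have nβ := nrm_pos f hβ
  have h1 : f (wg α3 β) * nrm f s ≤ f (wg α3 s) * nrm f β + f (wg s β) * nrm f α3 :=
    wedge_arch f α3 s β
  have h2 : f (wg α3 s) = nrm f s * nrm f α3 * Real.exp (-lamA f s α3) := by
    rw [f_wg_comm f α3 s, wg_exp f hs hα3 hs3]
  have h3 : f (wg α3 s) * nrm f β ≤ f (wg α3 β) / 4 * nrm f s := by
    rw [h2]
    have h4 : Real.exp (-lamA f s α3) ≤ Real.exp (-θ) := Real.exp_le_exp.mpr (by linarith)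
    calc nrm f s * nrm f α3 * Real.exp (-lamA f s α3) * nrm f β
        ≤ nrm f s * nrm f α3 * Real.exp (-θ) * nrm f β := by
          refine mul_le_mul_of_nonneg_right (mul_le_mul_of_nonneg_left h4 (by positivity)) nβ.le
      _ = (4 * nrm f α3 * nrm f β * Real.exp (-θ)) / 4 * nrm f s := by ring
      _ ≤ (f (wg α3 β) * 1) / 4 * nrm f s := by
          refine mul_le_mul_of_nonneg_right ?_ ns.le
          linarith
      _ = _ := by ring
  have h5 : f (wg α3 β) / 2 * nrm f s ≤ f (wg s β) * nrm f α3 := by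
    have h6 : 0 ≤ f (wg α3 β) * nrm f s := mul_nonneg (f.nonneg _) ns.le
    nlinarith
  rw [div_mul_eq_mul_div, div_le_iff₀ (by positivity)]
  nlinarith

/-- gain at a third form, general case -/
lemma muA_ge_third {k : ℕ} (hk0 : 0 < k) (hk : 0 < f (k : K))
    {α1 α2 α3 : K × K} (hα1 : α1 ≠ 0) (hα2 : α2 ≠ 0) (hα3 : α3 ≠ 0)
    (h12 : wg α1 α2 ≠ 0) (h13 : wg α3 α1 ≠ 0) (h23 : wg α3 α2 ≠ 0) :
    ∃ ε Θ C : ℝ, 0 < ε ∧ 0 ≤ Θ ∧ 0 ≤ C ∧ ∀ (p r : K × K), p ≠ 0 → r ≠ 0 → wg p r ≠ 0 →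
      wg p α1 ≠ 0 → wg p α2 ≠ 0 → wg r α1 ≠ 0 → wg r α2 ≠ 0 → wg p α3 ≠ 0 → wg r α3 ≠ 0 →
      ∀ tx ty g0 : K, tx ^ k * g0 * wg p α2 = wg p α1 → ty ^ k * g0 * wg r α2 = wg r α1 →
      ty ≠ 0 → ∀ θ : ℝ, Θ ≤ θ → θ ≤ lamA f p α3 → θ ≤ lamA f r α3 →
      f ((tx / ty) ^ k - 1) ≤ 1 / 2 ∧
      (f (tx / ty - 1) ≤ ε → (tx - ty) ^ k * wg p α2 * wg r α2 * g0 ≠ 0 →
        k * θ - C ≤ muA f p r ((tx - ty) ^ k * wg p α2 * wg r α2 * g0)) := by
  obtain ⟨ε, hε, hε1, hroot⟩ := root_gen f hk0 hk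
  have n1 := nrm_pos f hα1
  have n2 := nrm_pos f hα2
  have n3 := nrm_pos f hα3
  have p12 := f.pos h12
  have p13 := f.pos h13
  have p23 := f.pos h23
  set c1 : ℝ := f (wg α3 α1) / (2 * nrm f α3) with hc1
  set c2 : ℝ := f (wg α3 α2) / (2 * nrm f α3) with hc2
  have hc1p : 0 < c1 := by positivity
  have hc2p : 0 < c2 := by positivity
  -- the constant in front of exp (-θ)
  set C1 : ℝ := 2 * f (wg α1 α2) / (c1 * c2) with hC1
  have hC1p : 0 < C1 := by positivity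
  -- threshold
  set Θ : ℝ := max 0 (max (max (Real.log (4 * nrm f α3 * nrm f α1 / f (wg α3 α1)))
    (Real.log (4 * nrm f α3 * nrm f α2 / f (wg α3 α2)))) (Real.log (2 * C1))) with hΘ
  set D : ℝ := k * Real.log (2 / f (k : K) * C1) + Real.log (4 * nrm f α1 * nrm f α2) with hD
  refine ⟨ε, Θ, |D|, hε, le_max_left _ _, abs_nonneg _, ?_⟩
  intro p r hp hr hpr hp1 hp2 hr1 hr2 hp3 hr3 tx ty g0 hx hy hty θ hθ hθp hθr
  have np := nrm_pos f hp
  have nr := nrm_pos f hr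
  have hθ1 : Real.log (4 * nrm f α3 * nrm f α1 / f (wg α3 α1)) ≤ θ :=
    ((le_max_left _ _).trans ((le_max_left _ _).trans (le_max_right _ _))).trans hθ
  have hθ2 : Real.log (4 * nrm f α3 * nrm f α2 / f (wg α3 α2)) ≤ θ :=
    ((le_max_right _ _).trans ((le_max_left _ _).trans (le_max_right _ _))).trans hθ
  have hθ3 : Real.log (2 * C1) ≤ θ :=
    ((le_max_right _ _).trans (le_max_right _ _)).trans hθ
  have q1 : 4 * nrm f α3 * nrm f α1 * Real.exp (-θ) ≤ f (wg α3 α1) * 1 := by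
    rw [Real.log_le_iff_le_exp (by positivity), div_le_iff₀ p13] at hθ1
    rw [Real.exp_neg, mul_one, ← div_eq_mul_inv, div_le_iff₀ (Real.exp_pos _)]
    linarith
  have q2 : 4 * nrm f α3 * nrm f α2 * Real.exp (-θ) ≤ f (wg α3 α2) * 1 := by
    rw [Real.log_le_iff_le_exp (by positivity), div_le_iff₀ p23] at hθ2
    rw [Real.exp_neg, mul_one, ← div_eq_mul_inv, div_le_iff₀ (Real.exp_pos _)]
    linarith
  have q3 : C1 * Real.exp (-θ) ≤ 1 / 2 := by
    rw [Real.log_le_iff_le_exp (by positivity)] at hθ3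
    rw [Real.exp_neg, ← div_eq_mul_inv, div_le_iff₀ (Real.exp_pos _)]
    linarith
  have hb1 : c1 * nrm f r ≤ f (wg r α1) := away f hr hα3 hr3 h13 θ q1 hα1 hθr
  have ha2 : c2 * nrm f p ≤ f (wg p α2) := away f hp hα3 hp3 h23 θ q2 hα2 hθp
  have hu : f ((tx / ty) ^ k - 1) ≤ C1 * Real.exp (-θ) := by
    have h1 := u_eq hx hy hty
    have h2 : f (((tx / ty) ^ k - 1) * (wg r α1 * wg p α2)) = f (wg p r * wg α1 α2) := by
      rw [h1, plucker]
    rw [f.map_mul, f.map_mul, f.map_mul] at h2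
    -- |p ∧ r| is small
    have h3 : f (wg p r) * nrm f α3 ≤
        f (wg p α3) * nrm f r + f (wg α3 r) * nrm f p := wedge_arch f p α3 r
    have h4 : f (wg p α3) ≤ nrm f p * nrm f α3 * Real.exp (-θ) := by
      rw [wg_exp f hp hα3 hp3]
      exact mul_le_mul_of_nonneg_left (Real.exp_le_exp.mpr (by linarith)) (by positivity)
    have h5 : f (wg α3 r) ≤ nrm f r * nrm f α3 * Real.exp (-θ) := by
      rw [f_wg_comm f α3 r, wg_exp f hr hα3 hr3]
      exact mul_le_mul_of_nonneg_left (Real.exp_le_exp.mpr (by linarith)) (by positivity)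
    have h6 : f (wg p r) ≤ 2 * (nrm f p * nrm f r) * Real.exp (-θ) := by
      refine le_of_mul_le_mul_right (h3.trans ?_) n3
      calc f (wg p α3) * nrm f r + f (wg α3 r) * nrm f p
          ≤ (nrm f p * nrm f α3 * Real.exp (-θ)) * nrm f r +
            (nrm f r * nrm f α3 * Real.exp (-θ)) * nrm f p :=
            add_le_add (mul_le_mul_of_nonneg_right h4 nr.le) (mul_le_mul_of_nonneg_right h5 np.le)
        _ = _ := by ring
    have h7 : f ((tx / ty) ^ k - 1) * (c1 * nrm f r * (c2 * nrm f p)) ≤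
        2 * (nrm f p * nrm f r) * Real.exp (-θ) * f (wg α1 α2) := by
      calc f ((tx / ty) ^ k - 1) * (c1 * nrm f r * (c2 * nrm f p))
          ≤ f ((tx / ty) ^ k - 1) * (f (wg r α1) * f (wg p α2)) :=
            mul_le_mul_of_nonneg_left (mul_le_mul hb1 ha2 (by positivity) (f.nonneg _))
              (f.nonneg _)
        _ = f (wg p r) * f (wg α1 α2) := h2
        _ ≤ _ := mul_le_mul_of_nonneg_right h6 p12.le
    have h8 : C1 * Real.exp (-θ) * (c1 * nrm f r * (c2 * nrm f p)) =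
        2 * (nrm f p * nrm f r) * Real.exp (-θ) * f (wg α1 α2) := by
      rw [hC1]; field_simp
    rw [← h8] at h7
    exact le_of_mul_le_mul_right h7 (by positivity)
  refine ⟨hu.trans q3, fun hlt hA => ?_⟩
  rw [le_muA_iff f hp hr hA, A_eq hy hty, f.map_mul, f.map_mul, f.map_pow]
  have h5 : f (tx / ty - 1) ≤ 2 / f (k : K) * C1 * Real.exp (-θ) := by
    refine (hroot _ hlt).trans ?_
    rw [mul_assoc]
    exact mul_le_mul_of_nonneg_left hu (by positivity)
  have h6 : f (tx / ty - 1) ^ k ≤ (2 / f (k : K) * C1) ^ k * Real.exp (-(k * θ)) := by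
    calc f (tx / ty - 1) ^ k ≤ (2 / f (k : K) * C1 * Real.exp (-θ)) ^ k :=
          pow_le_pow_left₀ (f.nonneg _) h5 k
      _ = _ := by rw [mul_pow, ← Real.exp_nat_mul]; congr 2; ring
  have h7 : f (wg r α1) * f (wg p α2) ≤ 4 * nrm f α1 * nrm f α2 * (nrm f p * nrm f r) := by
    calc f (wg r α1) * f (wg p α2) ≤ (2 * (nrm f r * nrm f α1)) * (2 * (nrm f p * nrm f α2)) :=
          mul_le_mul (f_wg_le f r α1) (f_wg_le f p α2) (f.nonneg _) (by positivity)
      _ = _ := by ring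
  have h8 : (2 / f (k : K) * C1) ^ k * (4 * nrm f α1 * nrm f α2) = Real.exp D := by
    rw [hD, Real.exp_add, Real.exp_nat_mul, Real.exp_log (by positivity),
      Real.exp_log (by positivity)]
  calc f (tx / ty - 1) ^ k * (f (wg r α1) * f (wg p α2))
      ≤ ((2 / f (k : K) * C1) ^ k * Real.exp (-(k * θ))) *
        (4 * nrm f α1 * nrm f α2 * (nrm f p * nrm f r)) :=
        mul_le_mul h6 h7 (mul_nonneg (f.nonneg _) (f.nonneg _)) (by positivity)
    _ = ((2 / f (k : K) * C1) ^ k * (4 * nrm f α1 * nrm f α2)) * Real.exp (-(k * θ)) *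
        (nrm f p * nrm f r) := by ring
    _ = Real.exp (D - k * θ) * (nrm f p * nrm f r) := by
        rw [h8, ← Real.exp_add]; congr 2
    _ ≤ Real.exp (-(k * θ - |D|)) * (nrm f p * nrm f r) := by
        refine mul_le_mul_of_nonneg_right (Real.exp_le_exp.mpr ?_) (by positivity)
        linarith [le_abs_self D]

end Abs

end Pool.Agent.H691R3
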