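import Pool.Agent.H59.L.S8.H691R3.Places

set_option autoImplicit false
set_option linter.unusedSectionVars false

/-!
Elements of a number field all of whose valuations are divisible by `k` fall into finitely many
classes modulo `k`-th powers.
-/

namespace Pool.Agent.H691R3

open NumberField IsDedekindDomain Finset nonZeroDivisors

variable {K : Type*} [Field K] [NumberField K]

/-- the order of an integer at a prime, as a count of factors -/
lemma fv_int_count (v : HeightOneSpectrum (𝓞 K)) {a : 𝓞 K} (ha : a ≠ 0) :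
    fv v (a : K) = (Nv v) ^ (-((Associates.mk v.asIdeal).count
      (Associates.mk (Ideal.span {a} : Ideal (𝓞 K))).factors : ℤ)) := by
  have h1 : fv v (a : K) = _ := NumberField.FinitePlace.norm_embedding_int K v a
  have hx' : v.intValuation a ≠ 0 := v.intValuation_ne_zero a ha
  rw [WithZeroMulInt.toNNReal_neg_apply _ hx'] at h1
  rw [h1]
  push_cast
  unfold Nv
  congr 1
  have h2 := v.intValuation_if_neg ha
  have h3 : (WithZero.unzero hx') = Multiplicative.ofAdd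
      (-((Associates.mk v.asIdeal).count
        (Associates.mk (Ideal.span {a} : Ideal (𝓞 K))).factors : ℤ)) := by
    rw [← WithZero.coe_inj, WithZero.coe_unzero, h2]
    rfl
  rw [h3]
  rfl

/-- all orders divisible by `k` -/
def PowIdeal (k : ℕ) (a : K) : Prop :=
  ∀ v : HeightOneSpectrum (𝓞 K), ∃ n : ℤ, fv v a = (Nv v) ^ ((k : ℤ) * n)

lemma Nv_zpow_inj (v : HeightOneSpectrum (𝓞 K)) {m n : ℤ} (h : (Nv v) ^ m = (Nv v) ^ n) :
    m = n := by
  have h1 : (0 : ℝ) < Nv v := by linarith [two_le_Nv v]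
  have h2 : Nv v ≠ 1 := by linarith [two_le_Nv v]
  exact zpow_right_injective₀ h1 h2 h

lemma exists_ideal_root {k : ℕ} (hk : 0 < k) {b : 𝓞 K} (hb : b ≠ 0)
    (h : PowIdeal k (b : K)) : ∃ I : Ideal (𝓞 K), I ≠ ⊥ ∧ Ideal.span {b} = I ^ k := by
  classical
  have hspan : (Ideal.span {b} : Ideal (𝓞 K)) ≠ 0 := by
    rw [Ideal.zero_eq_bot, Ne, Ideal.span_singleton_eq_bot]
    exact hb
  have hcount : ∀ v : HeightOneSpectrum (𝓞 K), ∃ m : ℕ, (Associates.mk v.asIdeal).count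
      (Associates.mk (Ideal.span {b} : Ideal (𝓞 K))).factors = k * m := by
    intro v
    obtain ⟨n, hn⟩ := h v
    rw [fv_int_count v hb] at hn
    have h1 := Nv_zpow_inj v hn
    have h2 : ((Associates.mk v.asIdeal).count
      (Associates.mk (Ideal.span {b} : Ideal (𝓞 K))).factors : ℤ) = k * (-n) := by linarith
    have h3 : (k : ℤ) ∣ ((Associates.mk v.asIdeal).count
      (Associates.mk (Ideal.span {b} : Ideal (𝓞 K))).factors : ℤ) := ⟨-n, h2⟩
    obtain ⟨m, hm⟩ := Int.natCast_dvd_natCast.mp h3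
    exact ⟨m, hm⟩
  choose m hm using hcount
  have hfin : (Function.mulSupport fun v : HeightOneSpectrum (𝓞 K) => v.asIdeal ^ m v).Finite := by
    refine (Ideal.hasFiniteMulSupport hspan).subset ?_
    intro v hv
    rw [Function.mem_mulSupport] at hv ⊢
    intro h1
    apply hv
    rw [IsDedekindDomain.HeightOneSpectrum.maxPowDividing, hm v] at h1
    have h2 : k * m v = 0 := by
      by_contra hne
      have h3 : v.asIdeal ^ (k * m v) ≤ v.asIdeal := Ideal.pow_le_self hne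
      rw [h1, Ideal.one_eq_top] at h3
      exact v.isPrime.ne_top (top_le_iff.mp h3)
    have h4 : m v = 0 := by
      rcases Nat.mul_eq_zero.mp h2 with h5 | h5
      · omega
      · exact h5
    rw [h4, pow_zero]
  refine ⟨∏ᶠ v : HeightOneSpectrum (𝓞 K), v.asIdeal ^ m v, ?_, ?_⟩
  · rw [← Ideal.zero_eq_bot]
    intro h0
    have h1 : (∏ᶠ v : HeightOneSpectrum (𝓞 K), v.asIdeal ^ m v) ^ k = 0 := by
      rw [h0, zero_pow hk.ne']
    rw [finprod_eq_prod _ hfin] at h0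
    rw [Finset.prod_eq_zero_iff] at h0
    obtain ⟨v, _, hv⟩ := h0
    rcases Nat.eq_zero_or_pos (m v) with h5 | h5
    · rw [h5, pow_zero] at hv
      exact one_ne_zero hv
    · have h6 := (pow_eq_zero_iff h5.ne').mp hv
      rw [Ideal.zero_eq_bot] at h6
      exact v.ne_bot h6
  · rw [finprod_pow hfin]
    have h1 := Ideal.finprod_heightOneSpectrum_factorization hspan
    rw [← h1]
    refine finprod_congr fun v => ?_
    rw [IsDedekindDomain.HeightOneSpectrum.maxPowDividing, hm v, mul_comm, pow_mul]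

lemma fv_pos (v : HeightOneSpectrum (𝓞 K)) {a : K} (ha : a ≠ 0) : 0 < fv v a := (fv v).pos ha

/-- integral representative modulo `k`-th powers -/
lemma exists_int_rep {k : ℕ} (hk : 0 < k) {a : K} (ha : a ≠ 0) (h : PowIdeal k a) :
    ∃ (b m : 𝓞 K) (I : (Ideal (𝓞 K))⁰), b ≠ 0 ∧ m ≠ 0 ∧ a * (m : K) ^ k = (b : K) ∧
      Ideal.span {b} = (I : Ideal (𝓞 K)) ^ k := by
  obtain ⟨n, m, hm, rfl⟩ := IsFractionRing.div_surjective (𝓞 K) a
  have hm0 : m ≠ 0 := nonZeroDivisors.ne_zero hm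
  have hm1 : (m : K) ≠ 0 := RingOfIntegers.coe_ne_zero_iff.mpr hm0
  have hn1 : (n : K) ≠ 0 := by
    intro h0
    apply ha
    have h0' : algebraMap (𝓞 K) K n = 0 := h0
    rw [h0', zero_div]
  have hn0 : n ≠ 0 := RingOfIntegers.coe_ne_zero_iff.mp hn1
  set b : 𝓞 K := n * m ^ (k - 1) with hb
  have hb0 : b ≠ 0 := mul_ne_zero hn0 (pow_ne_zero _ hm0)
  have hbK : ((n : K) / (m : K)) * (m : K) ^ k = (b : K) := by
    rw [hb]
    push_cast
    obtain ⟨k', rfl⟩ : ∃ k', k = k' + 1 := ⟨k - 1, by omega⟩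
    rw [Nat.add_sub_cancel, pow_succ]
    field_simp
  have hPow : PowIdeal k (b : K) := by
    intro v
    obtain ⟨r, hr⟩ := h v
    obtain ⟨s, hs⟩ := fv_zpow v hm1
    refine ⟨r + s, ?_⟩
    rw [← hbK, map_mul, map_pow, hr, hs, ← zpow_natCast, ← zpow_mul,
      ← zpow_add₀ (by linarith [two_le_Nv v] : Nv v ≠ 0)]
    congr 1
    ring
  obtain ⟨I, hI0, hI⟩ := exists_ideal_root hk hb0 hPow
  exact ⟨b, m, ⟨I, mem_nonZeroDivisors_of_ne_zero (by rwa [Ideal.zero_eq_bot])⟩, hb0, hm0, hbK, hI⟩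

lemma finite_units_mod_pow {k : ℕ} (hk : 0 < k) :
    Finite ((𝓞 K)ˣ ⧸ (powMonoidHom k : (𝓞 K)ˣ →* (𝓞 K)ˣ).range) := by
  have hfg : Group.FG ((𝓞 K)ˣ ⧸ (powMonoidHom k : (𝓞 K)ˣ →* (𝓞 K)ˣ).range) := by
    have : Group.FG (𝓞 K)ˣ := Group.fg_iff_monoid_fg.mpr inferInstance
    infer_instance
  refine CommGroup.finite_of_fg_isMulTorsion _ ?_
  intro x
  induction x using QuotientGroup.induction_on with
  | H u =>
    rw [isOfFinOrder_iff_pow_eq_one]
    refine ⟨k, hk, ?_⟩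
    rw [← QuotientGroup.mk_pow, QuotientGroup.eq_one_iff]
    exact ⟨u, rfl⟩

/-- colouring modulo `k`-th powers -/
theorem power_coloring {k : ℕ} (hk : 0 < k) :
    ∃ (N : ℕ) (c : K → Fin N), ∀ a b : K, a ≠ 0 → b ≠ 0 → PowIdeal k a → PowIdeal k b →
      c a = c b → ∃ y : K, y ^ k * b = a := by
  classical
  have hex : ∀ a : K, ∃ (b m : 𝓞 K) (I : (Ideal (𝓞 K))⁰), (a ≠ 0 ∧ PowIdeal k a) →
      (b ≠ 0 ∧ m ≠ 0 ∧ a * (m : K) ^ k = (b : K) ∧ Ideal.span {b} = (I : Ideal (𝓞 K)) ^ k) := by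
    intro a
    by_cases h : a ≠ 0 ∧ PowIdeal k a
    · obtain ⟨b, m, I, hh⟩ := exists_int_rep hk h.1 h.2
      exact ⟨b, m, I, fun _ => hh⟩
    · exact ⟨1, 1, 1, fun h' => absurd h' h⟩
  choose B M I hBMI using hex
  -- representatives of the ideal classes
  set rep : ClassGroup (𝓞 K) → K := fun γ =>
    if h : ∃ a : K, (a ≠ 0 ∧ PowIdeal k a) ∧ ClassGroup.mk0 (I a) = γ then h.choose else 1
    with hrep
  have hrep_spec : ∀ a : K, (a ≠ 0 ∧ PowIdeal k a) →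
      ((rep (ClassGroup.mk0 (I a)) ≠ 0 ∧ PowIdeal k (rep (ClassGroup.mk0 (I a)))) ∧
        ClassGroup.mk0 (I (rep (ClassGroup.mk0 (I a)))) = ClassGroup.mk0 (I a)) := by
    intro a ha
    have h : ∃ a' : K, (a' ≠ 0 ∧ PowIdeal k a') ∧ ClassGroup.mk0 (I a') = ClassGroup.mk0 (I a) :=
      ⟨a, ha, rfl⟩
    have h2 : rep (ClassGroup.mk0 (I a)) = h.choose := by
      rw [hrep]
      exact dif_pos h
    rw [h2]
    exact h.choose_spec
  -- the unit attached to `a`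
  have hunit : ∀ a : K, ∃ (u : (𝓞 K)ˣ) (z : K), (a ≠ 0 ∧ PowIdeal k a) →
      (z ≠ 0 ∧ a = z ^ k * (u : 𝓞 K) * (B (rep (ClassGroup.mk0 (I a))) : K)) := by
    intro a
    by_cases h : a ≠ 0 ∧ PowIdeal k a
    · obtain ⟨hr1, hr2⟩ := hrep_spec a h
      set r := rep (ClassGroup.mk0 (I a)) with hr
      obtain ⟨hb1, hb2, hb3, hb4⟩ := hBMI a h
      obtain ⟨hc1, hc2, hc3, hc4⟩ := hBMI r hr1
      obtain ⟨x, y, hx, hy, hxy⟩ := ClassGroup.mk0_eq_mk0_iff.mp hr2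
      have h1 : Ideal.span {x ^ k * B r} = Ideal.span {y ^ k * B a} := by
        rw [← Ideal.span_singleton_mul_span_singleton, ← Ideal.span_singleton_mul_span_singleton,
          ← Ideal.span_singleton_pow, ← Ideal.span_singleton_pow, hb4, hc4, ← mul_pow, ← mul_pow,
          hxy]
      rw [Ideal.span_singleton_eq_span_singleton] at h1
      obtain ⟨u, hu⟩ := h1
      have hxK : (x : K) ≠ 0 := RingOfIntegers.coe_ne_zero_iff.mpr hx
      have hyK : (y : K) ≠ 0 := RingOfIntegers.coe_ne_zero_iff.mpr hy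
      have hmK : (M a : K) ≠ 0 := RingOfIntegers.coe_ne_zero_iff.mpr hb2
      refine ⟨u, (x : K) / ((y : K) * (M a : K)), fun _ => ⟨?_, ?_⟩⟩
      · exact div_ne_zero hxK (mul_ne_zero hyK hmK)
      · have h2 : (x : K) ^ k * (B r : K) * ((u : 𝓞 K) : K) = (y : K) ^ k * (B a : K) := by
          have := congrArg (fun t : 𝓞 K => (t : K)) hu
          push_cast at this
          exact this
        rw [div_pow, mul_pow, div_mul_eq_mul_div, div_mul_eq_mul_div,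
          eq_div_iff (mul_ne_zero (pow_ne_zero _ hyK) (pow_ne_zero _ hmK))]
        calc a * ((y : K) ^ k * (M a : K) ^ k) = (y : K) ^ k * (a * (M a : K) ^ k) := by ring
          _ = (y : K) ^ k * (B a : K) := by rw [hb3]
          _ = (x : K) ^ k * (B r : K) * ((u : 𝓞 K) : K) := h2.symm
          _ = _ := by ring
    · exact ⟨1, 1, fun h' => absurd h' h⟩
  choose U Z hUZ using hunit
  have hfinQ := finite_units_mod_pow (K := K) hk
  set col : K → ClassGroup (𝓞 K) × ((𝓞 K)ˣ ⧸ (powMonoidHom k : (𝓞 K)ˣ →* (𝓞 K)ˣ).range) :=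
    fun a => (ClassGroup.mk0 (I a), QuotientGroup.mk (U a)) with hcol
  have hfin : Finite (ClassGroup (𝓞 K) ×
      ((𝓞 K)ˣ ⧸ (powMonoidHom k : (𝓞 K)ˣ →* (𝓞 K)ˣ).range)) := inferInstance
  obtain ⟨N, ⟨e⟩⟩ := Finite.exists_equiv_fin (ClassGroup (𝓞 K) ×
      ((𝓞 K)ˣ ⧸ (powMonoidHom k : (𝓞 K)ˣ →* (𝓞 K)ˣ).range))
  refine ⟨N, fun a => e (col a), ?_⟩
  intro a b ha hb hPa hPb hab
  have hab' : col a = col b := e.injective hab
  have h1 : ClassGroup.mk0 (I a) = ClassGroup.mk0 (I b) := congrArg Prod.fst hab'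
  have h2 : (QuotientGroup.mk (U a) : (𝓞 K)ˣ ⧸ (powMonoidHom k : (𝓞 K)ˣ →* (𝓞 K)ˣ).range) =
      QuotientGroup.mk (U b) := congrArg Prod.snd hab'
  rw [QuotientGroup.eq] at h2
  obtain ⟨w, hw⟩ := h2
  have hw' : U b = U a * w ^ k := by
    have : (powMonoidHom k : (𝓞 K)ˣ →* (𝓞 K)ˣ) w = w ^ k := rfl
    rw [this] at hw
    rw [hw]
    group
  obtain ⟨hza, hea⟩ := hUZ a ⟨ha, hPa⟩
  obtain ⟨hzb, heb⟩ := hUZ b ⟨hb, hPb⟩
  rw [← h1, hw'] at heb
  have hwK : (((w : (𝓞 K)ˣ) : 𝓞 K) : K) ≠ 0 := by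
    rw [RingOfIntegers.coe_ne_zero_iff]
    exact w.ne_zero
  refine ⟨Z a / (Z b * (((w : (𝓞 K)ˣ) : 𝓞 K) : K)), ?_⟩
  set R : K := (B (rep (ClassGroup.mk0 (I a))) : K) with hR
  have e1 : a = Z a ^ k * (((U a : (𝓞 K)ˣ) : 𝓞 K) : K) * R := hea
  have e2 : b = Z b ^ k * ((((U a : (𝓞 K)ˣ) : 𝓞 K) : K) * (((w : (𝓞 K)ˣ) : 𝓞 K) : K) ^ k) * R := by
    have h5 := heb
    push_cast at h5
    exact h5
  rw [div_pow, mul_pow]
  have hzbk : Z b ^ k ≠ 0 := pow_ne_zero _ hzb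
  have hwk : (((w : (𝓞 K)ˣ) : 𝓞 K) : K) ^ k ≠ 0 := pow_ne_zero _ hwK
  calc Z a ^ k / (Z b ^ k * (((w : (𝓞 K)ˣ) : 𝓞 K) : K) ^ k) * b
      = Z a ^ k / (Z b ^ k * (((w : (𝓞 K)ˣ) : 𝓞 K) : K) ^ k) *
        (Z b ^ k * ((((U a : (𝓞 K)ˣ) : 𝓞 K) : K) * (((w : (𝓞 K)ˣ) : 𝓞 K) : K) ^ k) * R) := by
          rw [← e2]
    _ = Z a ^ k * (((U a : (𝓞 K)ˣ) : 𝓞 K) : K) * R := by
          field_simp
    _ = a := e1.symm

end Pool.Agent.H691R3
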